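import Mathlib
import Pool.Agent.Lib.H82O.Final

/-!
# Every natural number, with at most one exception, is triangular + square + pentagonal
-/

set_option autoImplicit false

namespace Pool.Agent.Results.MP_e3dd12_nt.AtMostOne

open Pool.Agent.Lib.H63.TSP Pool.Agent.Lib.H82O

/-- All natural numbers, with the exception of at most one, are of the form `i(i+1)/2 + j² + k(3k-1)/2` with natural
numbers `i, j, k`; the possible exception `n₀` satisfies `6n₀ + 1 ≥ 10¹³`. -/
theorem result : ∃ n₀ : ℕ, 10 ^ 13 ≤ 6 * n₀ + 1 ∧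
    ∀ n : ℕ, n ≠ n₀ → ∃ i j k : ℕ, n = i * (i + 1) / 2 + j ^ 2 + k * (3 * k - 1) / 2 := by
  by_cases h : ∃ n : ℕ, ¬ Rep n
  · obtain ⟨n₀, h₀⟩ := h
    refine ⟨n₀, ?_, fun n hn => ?_⟩
    · by_contra hc
      exact h₀ (sieve_all n₀ (by omega))
    · by_contra hc
      exact hn (at_most_one n n₀ hc h₀)
  · push Not at h
    exact ⟨10 ^ 13, by norm_num, fun n _ => h n⟩

end Pool.Agent.Results.MP_e3dd12_nt.AtMostOne
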