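import Mathlib
import Pool.Agent.Lib.H63.TSPDisc
import Pool.Agent.Lib.H63.NormForm

/-!
# `n` is representable when `6n + 1` is a norm `a² + 3b²` with `b ≠ 0`, e.g. when it is prime
-/

set_option autoImplicit false

namespace Pool.Agent.Results.MP_e3dd12_nt.NormForm

open Pool.Agent.Lib.H63

/-- If `6n + 1` is a prime, or is of the form `a² + 3b²` with integers `a` and `b ≠ 0`, then
`n = i(i+1)/2 + j² + k(3k-1)/2` for some natural numbers `i, j, k`. -/
theorem result : ∀ n : ℕ,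
    (Nat.Prime (6 * n + 1) ∨ ∃ a b : ℤ, b ≠ 0 ∧ (6 * n + 1 : ℤ) = a ^ 2 + 3 * b ^ 2) →
    ∃ i j k : ℕ, n = i * (i + 1) / 2 + j ^ 2 + k * (3 * k - 1) / 2 := by
  intro n h
  have h' : ∃ a b : ℤ, b ≠ 0 ∧ (6 * n + 1 : ℤ) = a ^ 2 + 3 * b ^ 2 := by
    rcases h with h | h
    · obtain ⟨a, b, hb, hab⟩ := NormForm.prime_eq h (by omega)
      exact ⟨a, b, hb, by rw [← hab]; push_cast; ring⟩
    · exact h
  obtain ⟨a, b, hb, hab⟩ := h'
  exact TSP.rep_of_norm hab hb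

end Pool.Agent.Results.MP_e3dd12_nt.NormForm
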