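import Mathlib
import Pool.Agent.Lib.H63.TSPAll

/-!
# `n` is representable as soon as `-2(6n+1)` is a square modulo a prime `5 ≤ p < 300`, `p ≠ 139`
-/

set_option autoImplicit false

namespace Pool.Agent.Results.MP_e3dd12_nt.ResidueClasses

open Pool.Agent.Lib.H63

/-- Let `p` be a prime with `5 ≤ p < 300` and `p ≠ 139`. Every natural number `n` for which
`-2(6n+1)` is a square modulo `p` (zero allowed) is of the form
`i(i+1)/2 + j² + k(3k-1)/2` with natural numbers `i, j, k`. -/
theorem result : ∀ n p : ℕ, Nat.Prime p → 5 ≤ p → p < 300 → p ≠ 139 →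
    IsSquare ((-2 * (6 * n + 1) : ℤ) : ZMod p) →
    ∃ i j k : ℕ, n = i * (i + 1) / 2 + j ^ 2 + k * (3 * k - 1) / 2 := by
  intro n p hp h5 h300 h139 h
  exact TSP.rep_of_prime hp h5 h300 h139 h

end Pool.Agent.Results.MP_e3dd12_nt.ResidueClasses
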