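import Mathlib
import Pool.Agent.Lib.H63.TSPTable
import Pool.Agent.Lib.H63.TSPThree

/-!
# A non-representable number has very few representations by three squares
-/

set_option autoImplicit false

namespace Pool.Agent.Results.MP_e3dd12_nt.ThreeSquareCount

open Pool.Agent.Lib.H63.TSP

/-- If the natural number `n` is not of the form `i(i+1)/2 + j² + k(3k-1)/2` with `i, j, k ∈ ℕ`,
then the number `r₃(12n+2)` of `(x, y, z) ∈ ℤ³` with `x² + y² + z² = 12n+2` satisfies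
`r₃(12n+2)^10 ≤ 2537^10 * (72n+12)`. -/
theorem result : ∀ n : ℕ, (¬ ∃ i j k : ℕ, n = i * (i + 1) / 2 + j ^ 2 + k * (3 * k - 1) / 2) →
    {t : ℤ × ℤ × ℤ | t.1 ^ 2 + t.2.1 ^ 2 + t.2.2 ^ 2 = 12 * n + 2}.Finite ∧
    {t : ℤ × ℤ × ℤ | t.1 ^ 2 + t.2.1 ^ 2 + t.2.2 ^ 2 = 12 * n + 2}.ncard ^ 10
      ≤ 2537 ^ 10 * (72 * n + 12) := by
  intro n hn
  have hb : Bad (6 * n + 1) := bad_of_not_rep hn
  have hset : {t : ℤ × ℤ × ℤ | t.1 ^ 2 + t.2.1 ^ 2 + t.2.2 ^ 2 = 12 * n + 2}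
      = R3 (2 * (6 * n + 1)) := by
    unfold R3
    have : (2 * (6 * (n : ℤ) + 1)) = 12 * n + 2 := by ring
    rw [this]
  rw [hset]
  have hm : (6 * (n : ℤ) + 1) % 6 = 1 := by omega
  refine ⟨R3_finite hm, ?_⟩
  have h1 := R3_card hm
  -- choose K
  obtain ⟨K, hK1, hK2⟩ : ∃ K : ℕ, 4 * (6 * n + 1) < 3 ^ K ∧ 3 ^ K ≤ 3 * (4 * (6 * n + 1)) := by
    have hne : 4 * (6 * n + 1) ≠ 0 := by omega
    refine ⟨Nat.log 3 (4 * (6 * n + 1)) + 1, Nat.lt_pow_succ_log_self (by norm_num) _, ?_⟩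
    rw [pow_succ, mul_comm]
    exact Nat.mul_le_mul_left 3 (Nat.pow_log_le_self 3 hne)
  have htab : tableOk T32.tb T32.fb 1000 1116 1000 = true := by
    rw [tableOk, T32.fb_ok, T32.tb_ok]; rfl
  have hcount := count_bound hb htab K [] (XF (6 * n + 1)) (by rw [T32.tb_start]; norm_num)
    (fun v hv => ⟨mem_XF.1 hv, v, mem_XF.1 hv, rfl, rfl⟩)
    (fun u hu v hv h => inject (by omega) (by exact_mod_cast hK1) (mem_XF.1 hu) (mem_XF.1 hv) h)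
  rw [T32.tb_start] at hcount
  set c := (XF (6 * n + 1)).card with hc
  -- 1000^K * 1000 * c ≤ 1116^K * 211368
  have h2 : (1000 ^ K * 1000 * c) ^ 10 ≤ (1116 ^ K * 211368) ^ 10 := Nat.pow_le_pow_left hcount 10
  have h3 : ((1116 : ℕ) ^ 10) ^ K ≤ (3 * 1000 ^ 10) ^ K := Nat.pow_le_pow_left (by norm_num) K
  have h4 : (1000 ^ 10) ^ K * (1000 ^ 10 * c ^ 10) ≤ (1000 ^ 10) ^ K * (3 ^ K * 211368 ^ 10) := by
    calc (1000 ^ 10) ^ K * (1000 ^ 10 * c ^ 10) = (1000 ^ K * 1000 * c) ^ 10 := by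
          rw [mul_pow, mul_pow, ← pow_mul, ← pow_mul, mul_comm 10 K]; ring
      _ ≤ (1116 ^ K * 211368) ^ 10 := h2
      _ = ((1116 : ℕ) ^ 10) ^ K * 211368 ^ 10 := by rw [mul_pow, ← pow_mul, ← pow_mul, mul_comm 10 K]
      _ ≤ (3 * 1000 ^ 10) ^ K * 211368 ^ 10 := Nat.mul_le_mul_right _ h3
      _ = (1000 ^ 10) ^ K * (3 ^ K * 211368 ^ 10) := by rw [mul_pow]; ring
  have h5 : 1000 ^ 10 * c ^ 10 ≤ 3 ^ K * 211368 ^ 10 :=
    Nat.le_of_mul_le_mul_left h4 (by positivity)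
  have h6 : (R3 (2 * (6 * (n : ℤ) + 1))).ncard ^ 10 ≤ (12 * c) ^ 10 := Nat.pow_le_pow_left h1 10
  have h7 : 3 ^ K ≤ 72 * n + 12 := by omega
  have h8 : 1000 ^ 10 * (12 * c) ^ 10 ≤ 1000 ^ 10 * (2537 ^ 10 * (72 * n + 12)) := by
    calc 1000 ^ 10 * (12 * c) ^ 10 = 12 ^ 10 * (1000 ^ 10 * c ^ 10) := by ring
      _ ≤ 12 ^ 10 * (3 ^ K * 211368 ^ 10) := Nat.mul_le_mul_left _ h5
      _ ≤ 12 ^ 10 * ((72 * n + 12) * 211368 ^ 10) :=
          Nat.mul_le_mul_left _ (Nat.mul_le_mul_right _ h7)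
      _ = (12 ^ 10 * 211368 ^ 10) * (72 * n + 12) := by ring
      _ ≤ (1000 ^ 10 * 2537 ^ 10) * (72 * n + 12) := Nat.mul_le_mul_right _ (by norm_num)
      _ = 1000 ^ 10 * (2537 ^ 10 * (72 * n + 12)) := by ring
  exact h6.trans (Nat.le_of_mul_le_mul_left h8 (by positivity))

end Pool.Agent.Results.MP_e3dd12_nt.ThreeSquareCount
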